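import Pool.Agent.H98.RFC.Targets
import Pool.Agent.H98.RFZ.Targets

/-!
# Board `rfz_modules`, row RES: restriction of the extremal ground states to a subdomain
-/

set_option autoImplicit false

noncomputable section

namespace Pool.Agent.H49.RFZ

open Pool.Agent.H98.RFC Pool.Agent.H98.RFZ

theorem mem_gs {R : ℕ} {J h : Site → ℝ} {Λ : Finset Site} {B : Set Site} {S : Finset Site} :
    S ∈ gs R J h Λ B ↔ S ⊆ Λ ∧ ∀ S' : Finset Site, S' ⊆ Λ →
      en R J h Λ (↑S ∪ B) ≤ en R J h Λ (↑S' ∪ B) := by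
  unfold gs
  rw [Finset.mem_filter, Finset.mem_powerset]
  simp only [Finset.mem_powerset]

/-- Ground states of a subdomain with the boundary condition given by a ground state. -/
theorem gs_restrict (hDM : T_DM) (R : ℕ) (J h : Site → ℝ) (W Λ : Finset Site) (B : Set Site)
    (hW : W ⊆ Λ) (S : Finset Site)
    (hS : S ∈ gs R J h Λ B) (T : Finset Site) (hT : T ⊆ W) :
    T ∈ gs R J h W (↑(S \ W) ∪ B) ↔ T ∪ (S \ W) ∈ gs R J h Λ B := by
  have hS' := mem_gs.1 hS
  have key : ∀ T₁ T₂ : Finset Site, T₁ ⊆ W → T₂ ⊆ W →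
      en R J h Λ (↑(T₁ ∪ (S \ W)) ∪ B) - en R J h W (↑T₁ ∪ (↑(S \ W) ∪ B)) =
        en R J h Λ (↑(T₂ ∪ (S \ W)) ∪ B) - en R J h W (↑T₂ ∪ (↑(S \ W) ∪ B)) := by
    intro T₁ T₂ h₁ h₂
    have e : ∀ T : Finset Site, (↑(T ∪ (S \ W)) ∪ B : Set Site) = ↑T ∪ (↑(S \ W) ∪ B) := by
      intro T
      rw [Finset.coe_union, Set.union_assoc]
    rw [e T₁, e T₂]
    apply hDM R J h W Λ hW
    ext x
    simp only [Set.mem_diff, Set.mem_union, Finset.mem_coe]
    constructor
    · rintro ⟨h3 | h3, h4⟩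
      · exact absurd (h₁ h3) h4
      · exact ⟨Or.inr h3, h4⟩
    · rintro ⟨h3 | h3, h4⟩
      · exact absurd (h₂ h3) h4
      · exact ⟨Or.inr h3, h4⟩
  have hSW : (S ∩ W) ∪ (S \ W) = S := by
    ext x
    simp only [Finset.mem_union, Finset.mem_inter, Finset.mem_sdiff]
    tauto
  have hsub : ∀ T : Finset Site, T ⊆ W → T ∪ (S \ W) ⊆ Λ := by
    intro T hT x hx
    rcases Finset.mem_union.1 hx with h1 | h1
    · exact hW (hT h1)
    · exact hS'.1 (Finset.mem_sdiff.1 h1).1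
  have hmin : ∀ T : Finset Site, T ⊆ W →
      en R J h W (↑(S ∩ W) ∪ (↑(S \ W) ∪ B)) ≤ en R J h W (↑T ∪ (↑(S \ W) ∪ B)) := by
    intro T hT
    have h1 := key (S ∩ W) T Finset.inter_subset_right hT
    rw [hSW] at h1
    have h2 := hS'.2 _ (hsub T hT)
    linarith
  constructor
  · intro h1
    have h1' := mem_gs.1 h1
    refine mem_gs.2 ⟨hsub T hT, fun S'' hS'' => ?_⟩
    have h2 := key (S ∩ W) T Finset.inter_subset_right hT
    rw [hSW] at h2
    have h3 := h1'.2 (S ∩ W) Finset.inter_subset_right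
    have h4 := hS'.2 S'' hS''
    linarith
  · intro h1
    have h1' := mem_gs.1 h1
    refine mem_gs.2 ⟨hT, fun T' hT' => ?_⟩
    have h2 := key T' T hT' hT
    have h3 := h1'.2 _ (hsub T' hT')
    linarith

theorem pf_RES (hDM : T_DM) (hLAT : Z_LAT) : Z_RES := by
  intro R J hJ h W Λ B hW hB
  obtain ⟨-, hp, hn, hall⟩ := hLAT R J hJ h Λ B hB
  have hdis : ∀ S : Finset Site, Disjoint (↑(S \ W) ∪ B : Set Site) (↑W : Set Site) := by
    intro S
    rw [Set.disjoint_left]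
    intro x hx hxW
    rcases hx with hx | hx
    · exact (Finset.mem_sdiff.1 (Finset.mem_coe.1 hx)).2 (Finset.mem_coe.1 hxW)
    · exact Set.disjoint_left.1 hB hx (Finset.mem_coe.2 (hW (Finset.mem_coe.1 hxW)))
  have hSW : ∀ S : Finset Site, (S ∩ W) ∪ (S \ W) = S := by
    intro S
    ext x
    simp only [Finset.mem_union, Finset.mem_inter, Finset.mem_sdiff]
    tauto
  have hmem : ∀ S ∈ gs R J h Λ B, S ∩ W ∈ gs R J h W (↑(S \ W) ∪ B) := by
    intro S hS
    rw [gs_restrict hDM R J h W Λ B hW S hS _ Finset.inter_subset_right, hSW]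
    exact hS
  constructor
  · obtain ⟨-, hp', -, hall'⟩ := hLAT R J hJ h W _ (hdis (gp R J h Λ B))
    apply Finset.Subset.antisymm
    · exact (hall' _ (hmem _ hp)).2
    · intro x hx
      have hsub : gp R J h W (↑(gp R J h Λ B \ W) ∪ B) ⊆ W := (mem_gs.1 hp').1
      have h1 := (gs_restrict hDM R J h W Λ B hW _ hp _ hsub).1 hp'
      exact Finset.mem_inter.2 ⟨(hall _ h1).2 (Finset.mem_union_left _ hx), hsub hx⟩
  · obtain ⟨-, -, hn', hall'⟩ := hLAT R J hJ h W _ (hdis (gn R J h Λ B))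
    apply Finset.Subset.antisymm
    · intro x hx
      obtain ⟨hx1, hx2⟩ := Finset.mem_inter.1 hx
      have hsub : gn R J h W (↑(gn R J h Λ B \ W) ∪ B) ⊆ W := (mem_gs.1 hn').1
      have h1 := (gs_restrict hDM R J h W Λ B hW _ hn _ hsub).1 hn'
      rcases Finset.mem_union.1 ((hall _ h1).1 hx1) with h2 | h2
      · exact h2
      · exact absurd hx2 (Finset.mem_sdiff.1 h2).2
    · exact (hall' _ (hmem _ hn)).1

end Pool.Agent.H49.RFZ
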